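import Pool.Agent.H93.Cay.Euler

/-!
# Solvable groups of automorphisms fix a clique

If any two maximal cliques of a finite graph meet, then every finite solvable group of
automorphisms leaves a nonempty clique invariant.
-/

namespace Pool.Agent.H48.Cay

open Pool.Agent.H93.Cay

/-- `D` is joined to `A`: the union is complete. -/
def Joined {V : Type*} [DecidableEq V] (G : SimpleGraph V) (A D : Finset V) : Prop :=
  G.IsClique ((A ∪ D : Finset V) : Set V)

/-- Any two complete sets have a common dominating vertex. -/
def CC {V : Type*} (G : SimpleGraph V) : Prop :=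
  ∀ s t : Finset V, G.IsClique (s : Set V) → G.IsClique (t : Set V) →
    ∃ c, (∀ v ∈ s, v ≠ c → G.Adj c v) ∧ (∀ v ∈ t, v ≠ c → G.Adj c v)

theorem exists_maxFin {V : Type*} [Finite V] (G : SimpleGraph V) :
    ∃ C : Finset V, G.IsClique (C : Set V) ∧
      ∀ c, (∀ v ∈ C, v ≠ c → G.Adj c v) → c ∈ C := by
  classical
  let _ : Fintype V := Fintype.ofFinite V
  obtain ⟨C, -, hC2⟩ := (Set.toFinite {D : Finset V | G.IsClique (D : Set V)}).exists_le_maximal
    (show (∅ : Finset V) ∈ {D : Finset V | G.IsClique (D : Set V)} by simp)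
  refine ⟨C, hC2.1, fun c hc => ?_⟩
  have h1 : insert c C ∈ {D : Finset V | G.IsClique (D : Set V)} := by
    change G.IsClique ((insert c C : Finset V) : Set V)
    rw [Finset.coe_insert]
    exact SimpleGraph.IsClique.insert hC2.1 (fun v hv hne => hc v hv (Ne.symm hne))
  exact hC2.2 h1 (Finset.subset_insert _ _) (Finset.mem_insert_self _ _)

/-- The case of one automorphism of prime order. -/
theorem exists_fixed_of_iterate {W : Type*} [Finite W] (G : SimpleGraph W) (hcc : CC G)
    (f : W → W) (hf : ∀ a b, G.Adj a b → G.Adj (f a) (f b)) (p : ℕ) [hp : Fact p.Prime]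
    (hfp : ∀ w, f^[p] w = w) :
    ∃ s : Finset W, s.Nonempty ∧ G.IsClique (s : Set W) ∧ ∀ w ∈ s, f w ∈ s := by
  classical
  let _ : Fintype W := Fintype.ofFinite W
  have hinj : Function.Injective f := by
    have h1 : Function.LeftInverse (f^[p - 1]) f := by
      intro w
      have h0 : p - 1 + 1 = p := Nat.sub_add_cancel hp.out.one_le
      rw [← Function.iterate_succ_apply, Nat.succ_eq_add_one, h0]
      exact hfp w
    exact h1.injective
  obtain ⟨C, hC, hCmax⟩ := exists_maxFin G
  have hsum := sum_cl_eq_zero G C hC (by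
    intro s hs
    obtain ⟨c, hc1, hc2⟩ := hcc C s hC hs
    exact ⟨c, hCmax c hc1, hc2⟩)
  have hcard := card_even_eq_card_odd G hsum
  by_contra hcon
  push Not at hcon
  have hmap : ∀ (q : ℕ → Prop) (s : Finset W), (G.IsClique (s : Set W) ∧ q s.card) →
      (G.IsClique ((s.image f : Finset W) : Set W) ∧ q (s.image f).card) := by
    intro q s hs
    refine ⟨?_, by rw [Finset.card_image_of_injective _ hinj]; exact hs.2⟩
    rw [Finset.coe_image]
    rintro x ⟨x', hx', rfl⟩ y ⟨y', hy', rfl⟩ hne
    exact hf x' y' (hs.1 hx' hy' (fun h => hne (by rw [h])))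
  have key : ∀ q : ℕ → Prop,
      Nat.card {s : Finset W // G.IsClique (s : Set W) ∧ q s.card} ≡
        (if q 0 then 1 else 0) [MOD p] := by
    intro q
    let F : {s : Finset W // G.IsClique (s : Set W) ∧ q s.card} →
        {s : Finset W // G.IsClique (s : Set W) ∧ q s.card} :=
      fun s => ⟨s.1.image f, hmap q s.1 s.2⟩
    have hFit : ∀ (n : ℕ) (s : {s : Finset W // G.IsClique (s : Set W) ∧ q s.card}),
        ((F^[n] s).1 : Finset W) = s.1.image (f^[n]) := by
      intro n
      induction n with
      | zero => intro s; simp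
      | succ n ih =>
        intro s
        rw [Function.iterate_succ_apply, ih, Function.iterate_succ]
        change (s.1.image f).image (f^[n]) = _
        rw [Finset.image_image]
    let F' : Function.End {s : Finset W // G.IsClique (s : Set W) ∧ q s.card} := F
    have h3 : ∀ n, F' ^ n = F^[n] := by
      intro n
      induction n with
      | zero => rfl
      | succ n ih =>
        rw [pow_succ, ih]
        rfl
    have hF1 : F' ^ p ^ 1 = 1 := by
      rw [pow_one, h3]
      funext s
      apply Subtype.ext
      rw [hFit]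
      have h4 : f^[p] = id := funext hfp
      rw [h4, Finset.image_id]
      rfl
    have h1 := Equiv.Perm.card_fixedPoints_modEq
      (α := {s : Finset W // G.IsClique (s : Set W) ∧ q s.card}) (f := F') (p := p) (n := 1) hF1
    rw [Nat.card_eq_fintype_card]
    refine h1.trans ?_
    rw [← Nat.card_eq_fintype_card]
    have hfix : ∀ s : {s : Finset W // G.IsClique (s : Set W) ∧ q s.card},
        s ∈ Function.fixedPoints F → s.1 = ∅ := by
      intro s hs
      by_contra hne
      obtain ⟨w, hw, hw2⟩ := hcon s.1 (Finset.nonempty_iff_ne_empty.2 hne) s.2.1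
      apply hw2
      have h5 : s.1.image f = s.1 := congrArg Subtype.val hs
      rw [← h5]
      exact Finset.mem_image_of_mem f hw
    have h2 : Nat.card (Function.fixedPoints F) = if q 0 then 1 else 0 := by
      split_ifs with hq
      · have h3 : Function.fixedPoints F = {⟨∅, by simp, by simpa using hq⟩} := by
          ext s
          rw [Set.mem_singleton_iff]
          constructor
          · intro hs
            exact Subtype.ext (hfix s hs)
          · rintro rfl
            apply Subtype.ext
            exact Finset.image_empty _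
        rw [h3]
        simp
      · have h3 : Function.fixedPoints F = ∅ := by
          ext s
          simp only [Set.mem_empty_iff_false, iff_false]
          intro hs
          apply hq
          have := s.2.2
          rw [hfix s hs] at this
          simpa using this
        rw [h3]
        simp
    rw [h2]
  have hE := key Even
  have hO := key (fun n => ¬ Even n)
  simp only [Even.zero, if_true, not_true, if_false] at hE hO
  rw [hcard] at hE
  have h5 : 1 ≡ 0 [MOD p] := hE.symm.trans hO
  have h6 : p ∣ 1 := (Nat.modEq_zero_iff_dvd).1 h5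
  exact hp.out.one_lt.ne' (Nat.dvd_one.1 h6)

/-- A nontrivial finite solvable group has a normal subgroup with cyclic quotient of prime
order, in the form used below. -/
theorem exists_normal_prime {K : Type*} [Group K] [Finite K] [Group.IsSolvable K]
    [Nontrivial K] :
    ∃ (M : Subgroup K) (g : K) (p : ℕ), M.Normal ∧ M ≠ ⊤ ∧ p.Prime ∧ g ^ p ∈ M ∧
      M ⊔ Subgroup.zpowers g = ⊤ := by
  have hlt := Group.IsSolvable.commutator_lt_top_of_nontrivial (G := K)
  obtain ⟨M, hM, hcM⟩ := (eq_top_or_exists_le_coatom (commutator K)).resolve_left hlt.ne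
  have hMn : M.Normal := Subgroup.Normal.of_commutator_le K hcM
  obtain ⟨g, hg⟩ : ∃ g : K, g ∉ M := by
    by_contra h
    push Not at h
    exact hM.1 (eq_top_iff.2 (fun x _ => h x))
  have hex : ∃ m : ℕ, 0 < m ∧ g ^ m ∈ M :=
    ⟨orderOf g, orderOf_pos g, by rw [pow_orderOf_eq_one]; exact M.one_mem⟩
  classical
  obtain ⟨hm0, hm⟩ := Nat.find_spec hex
  set m := Nat.find hex with hmdef
  have hm1 : m ≠ 1 := by
    intro h
    rw [h, pow_one] at hm
    exact hg hm
  set q := m.minFac with hq
  have hqp : q.Prime := Nat.minFac_prime hm1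
  obtain ⟨k, hk⟩ := Nat.minFac_dvd m
  have hk0 : 0 < k := by
    rcases Nat.eq_zero_or_pos k with h | h
    · rw [h, mul_zero] at hk
      omega
    · exact h
  have hkm : k < m := by
    rw [hk]
    have := hqp.one_lt
    rw [← hq]
    nlinarith
  have hgk : g ^ k ∉ M := by
    intro h
    exact Nat.find_min hex (by rw [← hmdef]; exact hkm) ⟨hk0, h⟩
  refine ⟨M, g ^ k, q, hMn, hM.1, hqp, ?_, ?_⟩
  · rw [← pow_mul, mul_comm, ← hk]
    exact hm
  · apply hM.2
    refine lt_of_le_of_ne le_sup_left ?_
    intro h
    apply hgk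
    rw [h]
    exact Subgroup.mem_sup_right (Subgroup.mem_zpowers _)

open scoped Pointwise in
/-- The main induction. -/
theorem fix_aux {V : Type*} [Finite V] [DecidableEq V] (G : SimpleGraph V) (hcc : CC G)
    (n : ℕ) : ∀ {K : Type} [Group K] [Finite K] [Group.IsSolvable K] [MulAction K V],
    Nat.card K = n → (∀ (k : K) (v w : V), G.Adj v w → G.Adj (k • v) (k • w)) →
    ∀ A B : Finset V, G.IsClique (A : Set V) → G.IsClique (B : Set V) →
      (∀ (k : K), ∀ v ∈ A, k • v ∈ A) → (∀ (k : K), ∀ v ∈ B, k • v ∈ B) →
      ∃ D : Finset V, D.Nonempty ∧ (∀ (k : K), ∀ v ∈ D, k • v ∈ D) ∧ Joined G A D ∧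
        Joined G B D := by
  induction n using Nat.strong_induction_on with
  | _ n ih =>
  intro K _ _ _ _ hn hG A B hA hB hAK hBK
  rcases subsingleton_or_nontrivial K with hK | hK
  · obtain ⟨c, hc1, hc2⟩ := hcc A B hA hB
    refine ⟨{c}, Finset.singleton_nonempty c, ?_, ?_, ?_⟩
    · intro k v hv
      rw [Subsingleton.elim k 1, one_smul]
      exact hv
    · change G.IsClique ((A ∪ {c} : Finset V) : Set V)
      rw [Finset.union_comm, Finset.coe_union, Finset.coe_singleton, Set.singleton_union]
      exact hA.insert (fun v hv hne => hc1 v hv (Ne.symm hne))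
    · change G.IsClique ((B ∪ {c} : Finset V) : Set V)
      rw [Finset.union_comm, Finset.coe_union, Finset.coe_singleton, Set.singleton_union]
      exact hB.insert (fun v hv hne => hc2 v hv (Ne.symm hne))
  · obtain ⟨M, g, p, hMn, hMt, hp, hgp, hMg⟩ := exists_normal_prime (K := K)
    have : Fact p.Prime := ⟨hp⟩
    have hlt : Nat.card M < n := by
      rw [← hn]
      exact lt_of_le_of_ne (Subgroup.card_le_card_group M)
        (fun h => hMt (Subgroup.eq_top_of_card_eq M h))
    have hGM : ∀ (k : M) (v w : V), G.Adj v w → G.Adj (k • v) (k • w) :=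
      fun k v w h => hG (k : K) v w h
    have ihM := ih (Nat.card M) hlt (K := M) rfl hGM
    -- the graph of `M`-invariant cliques joined to `A` and `B`
    let Z : Type _ := {D : Finset V // D.Nonempty ∧ (∀ (k : M), ∀ v ∈ D, k • v ∈ D) ∧
      Joined G A D ∧ Joined G B D}
    let Γ : SimpleGraph Z :=
      { Adj := fun D D' => D ≠ D' ∧ Joined G D.1 D'.1
        symm := ⟨fun D D' h => ⟨h.1.symm, by
          have := h.2
          unfold Joined at this ⊢
          rw [Finset.union_comm]
          exact this⟩⟩
        loopless := ⟨fun D h => h.1 rfl⟩ }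
    have hZclique : ∀ D : Z, G.IsClique (D.1 : Set V) := fun D =>
      D.2.2.2.1.subset (by
        intro v hv
        exact Finset.mem_coe.2 (Finset.mem_union_right _ (Finset.mem_coe.1 hv)))
    -- unions of cliques of `Γ`
    have hunion : ∀ (E : Finset V), G.IsClique (E : Set V) → ∀ s : Finset Z,
        Γ.IsClique (s : Set Z) → (∀ D ∈ s, Joined G E D.1) →
        G.IsClique ((E ∪ s.biUnion (fun D => D.1) : Finset V) : Set V) := by
      intro E hE s hs hEs x hx y hy hne
      rw [Finset.mem_coe, Finset.mem_union, Finset.mem_biUnion] at hx hy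
      rcases hx with hx | ⟨D, hD, hx⟩
      · rcases hy with hy | ⟨D', hD', hy⟩
        · exact hE hx hy hne
        · exact hEs D' hD' (Finset.mem_coe.2 (Finset.mem_union_left _ hx))
            (Finset.mem_coe.2 (Finset.mem_union_right _ hy)) hne
      · rcases hy with hy | ⟨D', hD', hy⟩
        · exact hEs D hD (Finset.mem_coe.2 (Finset.mem_union_right _ hx))
            (Finset.mem_coe.2 (Finset.mem_union_left _ hy)) hne
        · by_cases hDD : D = D'
          · subst hDD
            exact hZclique D hx hy hne
          · exact (hs hD hD' hDD).2 (Finset.mem_coe.2 (Finset.mem_union_left _ hx))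
              (Finset.mem_coe.2 (Finset.mem_union_right _ hy)) hne
    have hunionInv : ∀ (E : Finset V), (∀ (k : M), ∀ v ∈ E, k • v ∈ E) → ∀ s : Finset Z,
        ∀ (k : M), ∀ v ∈ E ∪ s.biUnion (fun D => D.1), k • v ∈ E ∪ s.biUnion (fun D => D.1) := by
      intro E hE s k v hv
      rw [Finset.mem_union, Finset.mem_biUnion] at hv ⊢
      rcases hv with hv | ⟨D, hD, hv⟩
      · exact Or.inl (hE k v hv)
      · exact Or.inr ⟨D, hD, D.2.2.1 k v hv⟩
    have hJsub : ∀ (E E' D : Finset V), E ⊆ E' → Joined G E' D → Joined G E D := by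
      intro E E' D hEE hJ
      refine SimpleGraph.IsClique.subset ?_ hJ
      intro v hv
      rw [Finset.mem_coe, Finset.mem_union] at hv ⊢
      exact hv.imp (fun h => hEE h) id
    have hccZ : CC Γ := by
      intro s t hs ht
      obtain ⟨D, hD1, hD2, hD3, hD4⟩ := ihM (A ∪ s.biUnion (fun D => D.1))
        (B ∪ t.biUnion (fun D => D.1))
        (hunion A hA s hs (fun D _ => D.2.2.2.1)) (hunion B hB t ht (fun D _ => D.2.2.2.2))
        (hunionInv A (fun k v hv => hAK k v hv) s) (hunionInv B (fun k v hv => hBK k v hv) t)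
      refine ⟨⟨D, hD1, hD2, hJsub _ _ _ Finset.subset_union_left hD3,
        hJsub _ _ _ Finset.subset_union_left hD4⟩, ?_, ?_⟩
      · intro E hE hne
        refine ⟨hne.symm, ?_⟩
        have h1 := hJsub E.1 _ _ ((Finset.subset_biUnion_of_mem (fun D : Z => D.1) hE).trans
          Finset.subset_union_right) hD3
        unfold Joined at h1 ⊢
        rw [Finset.union_comm]
        exact h1
      · intro E hE hne
        refine ⟨hne.symm, ?_⟩
        have h1 := hJsub E.1 _ _ ((Finset.subset_biUnion_of_mem (fun D : Z => D.1) hE).trans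
          Finset.subset_union_right) hD4
        unfold Joined at h1 ⊢
        rw [Finset.union_comm]
        exact h1
    have himgJ : ∀ (k : K) (E D : Finset V), Joined G E D →
        Joined G (E.image (fun v => k • v)) (D.image (fun v => k • v)) := by
      intro k E D h
      unfold Joined at h ⊢
      rw [← Finset.image_union, Finset.coe_image]
      rintro x ⟨x', hx', rfl⟩ y ⟨y', hy', rfl⟩ hne
      exact hG k x' y' (h hx' hy' (fun h => hne (by rw [h])))
    have himgE : ∀ (k : K) (E : Finset V), (∀ (k : K), ∀ v ∈ E, k • v ∈ E) →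
        E.image (fun v => k • v) = E := by
      intro k E hE
      ext v
      rw [Finset.mem_image]
      constructor
      · rintro ⟨w, hw, rfl⟩
        exact hE k w hw
      · intro hv
        exact ⟨k⁻¹ • v, hE k⁻¹ v hv, smul_inv_smul k v⟩
    let f : Z → Z := fun D => ⟨D.1.image (fun v => g • v), by
      refine ⟨D.2.1.image _, ?_, ?_, ?_⟩
      · intro k v hv
        rw [Finset.mem_image] at hv ⊢
        obtain ⟨w, hw, rfl⟩ := hv
        refine ⟨(g⁻¹ * (k : K) * g) • w, ?_, ?_⟩
        · have h1 : g⁻¹ * (k : K) * g ∈ M := by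
            have := hMn.conj_mem (k : K) k.2 g⁻¹
            simpa using this
          exact D.2.2.1 ⟨_, h1⟩ w hw
        · change g • ((g⁻¹ * (k : K) * g) • w) = (k : K) • (g • w)
          rw [← mul_smul, ← mul_smul]
          congr 1
          group
      · have := himgJ g A D.1 D.2.2.2.1
        rwa [himgE g A hAK] at this
      · have := himgJ g B D.1 D.2.2.2.2
        rwa [himgE g B hBK] at this⟩
    have hfinj : ∀ D D' : Z, f D = f D' → D = D' := by
      intro D D' h
      apply Subtype.ext
      have h1 : D.1.image (fun v => g • v) = D'.1.image (fun v => g • v) :=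
        congrArg Subtype.val h
      exact Finset.image_injective (MulAction.injective g) h1
    have hf : ∀ D D' : Z, Γ.Adj D D' → Γ.Adj (f D) (f D') := by
      intro D D' h
      exact ⟨fun h2 => h.1 (hfinj _ _ h2), himgJ g D.1 D'.1 h.2⟩
    have hfit : ∀ (m : ℕ) (D : Z), (f^[m] D).1 = D.1.image (fun v => g ^ m • v) := by
      intro m
      induction m with
      | zero => intro D; simp
      | succ m ihm =>
        intro D
        rw [Function.iterate_succ_apply, ihm]
        change (D.1.image (fun v => g • v)).image (fun v => g ^ m • v) = _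
        rw [Finset.image_image]
        congr 1
        funext v
        change g ^ m • (g • v) = g ^ (m + 1) • v
        rw [← mul_smul, pow_succ]
    have hfp : ∀ D : Z, f^[p] D = D := by
      intro D
      apply Subtype.ext
      rw [hfit]
      ext v
      rw [Finset.mem_image]
      constructor
      · rintro ⟨w, hw, rfl⟩
        exact D.2.2.1 ⟨g ^ p, hgp⟩ w hw
      · intro hv
        exact ⟨(g ^ p)⁻¹ • v, D.2.2.1 ⟨(g ^ p)⁻¹, M.inv_mem hgp⟩ v hv,
          smul_inv_smul (g ^ p) v⟩
    obtain ⟨s, ⟨D0, hD0⟩, hs, hsf⟩ := exists_fixed_of_iterate Γ hccZ f hf p hfp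
    refine ⟨s.biUnion (fun D => D.1), ?_, ?_, ?_, ?_⟩
    · obtain ⟨v, hv⟩ := D0.2.1
      exact ⟨v, Finset.mem_biUnion.2 ⟨D0, hD0, hv⟩⟩
    · have hsub : (⊤ : Subgroup K) ≤ MulAction.stabilizer K
          (s.biUnion (fun D => D.1) : Finset V) := by
        have hst : ∀ k : K, (∀ v ∈ s.biUnion (fun D => D.1), k • v ∈ s.biUnion (fun D => D.1)) →
            k ∈ MulAction.stabilizer K (s.biUnion (fun D => D.1) : Finset V) := by
          intro k hk
          rw [MulAction.mem_stabilizer_iff]
          refine Finset.eq_of_subset_of_card_le ?_ ?_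
          · intro v hv
            obtain ⟨w, hw, rfl⟩ := Finset.mem_smul_finset.1 hv
            exact hk w hw
          · rw [Finset.card_smul_finset]
        rw [← hMg, sup_le_iff, Subgroup.zpowers_le]
        refine ⟨fun k hk => hst k ?_, hst g ?_⟩
        · intro v hv
          rw [Finset.mem_biUnion] at hv ⊢
          obtain ⟨D, hD, hv⟩ := hv
          exact ⟨D, hD, D.2.2.1 ⟨k, hk⟩ v hv⟩
        · intro v hv
          rw [Finset.mem_biUnion] at hv ⊢
          obtain ⟨D, hD, hv⟩ := hv
          exact ⟨f D, hsf D hD, Finset.mem_image_of_mem (fun v => g • v) hv⟩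
      intro k v hv
      have h1 := MulAction.mem_stabilizer_iff.1 (hsub (Subgroup.mem_top k))
      rw [← h1]
      exact Finset.smul_mem_smul_finset hv
    · exact hunion A hA s hs (fun D _ => D.2.2.2.1)
    · exact hunion B hB s hs (fun D _ => D.2.2.2.2)

end Pool.Agent.H48.Cay
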