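import Pool.Agent.H48.Cay.Fix

/-!
# Disjoint maximal cliques in group graphs: solvable subgroups and quotients
-/

namespace Pool.Agent.H48.Cay

/-- The group graph `G(L, X)`: the vertices are the elements of `X`, the edges are the pairs
`{x, x * l}` with `l ∈ L`. -/
def groupGraph {X : Type} [Group X] (L : Set X) (h1 : (1 : X) ∉ L) (hinv : ∀ x ∈ L, x⁻¹ ∈ L) :
    SimpleGraph X where
  Adj x y := x⁻¹ * y ∈ L
  symm := ⟨fun x y h => by simpa using hinv _ h⟩
  loopless := ⟨fun x h => h1 (by simpa using h)⟩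

/-- `C` is a maximal complete subgraph (a clique in the sense of the problem). -/
def IsMaxClique {V : Type} (G : SimpleGraph V) (C : Set V) : Prop :=
  G.IsClique C ∧ ∀ D : Set V, G.IsClique D → C ⊆ D → D = C

/-- The graph has two disjoint maximal complete subgraphs. -/
def TwoDisjointCliques {V : Type} (G : SimpleGraph V) : Prop :=
  ∃ C D : Set V, IsMaxClique G C ∧ IsMaxClique G D ∧ Disjoint C D

theorem exists_maxClique {V : Type} [Finite V] (G : SimpleGraph V) (C : Set V)
    (hC : G.IsClique C) : ∃ D, C ⊆ D ∧ IsMaxClique G D := by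
  obtain ⟨D, hD1, hD2⟩ := (Set.toFinite {D : Set V | G.IsClique D}).exists_le_maximal hC
  refine ⟨D, hD1, hD2.1, ?_⟩
  intro E hE hDE
  exact Set.Subset.antisymm (hD2.2 hE hDE) hDE

/-- A graph without two disjoint cliques. -/
theorem cc_of_not_two {V : Type} [Finite V] (G : SimpleGraph V)
    (h : ¬ TwoDisjointCliques G) : CC G := by
  intro s t hs ht
  obtain ⟨D, hsD, hD⟩ := exists_maxClique G (s : Set V) hs
  obtain ⟨E, htE, hE⟩ := exists_maxClique G (t : Set V) ht
  obtain ⟨c, hcD, hcE⟩ := Set.not_disjoint_iff.1 (fun hdis => h ⟨D, E, hD, hE, hdis⟩)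
  exact ⟨c, fun v hv hne => hD.1 hcD (hsD (by simpa using hv)) (Ne.symm hne),
    fun v hv hne => hE.1 hcE (htE (by simpa using hv)) (Ne.symm hne)⟩

/-- A solvable group of automorphisms without complete orbit gives two disjoint cliques. -/
theorem two_of_solvable_action {V K : Type} [Finite V] [Group K] [Finite K]
    [Group.IsSolvable K] [MulAction K V] (G : SimpleGraph V)
    (hG : ∀ (k : K) (v w : V), G.Adj v w → G.Adj (k • v) (k • w))
    (hK : ∀ v : V, ∃ k : K, k • v ≠ v ∧ ¬ G.Adj v (k • v)) : TwoDisjointCliques G := by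
  classical
  by_contra hcon
  obtain ⟨D, ⟨v, hv⟩, hD, hD2, -⟩ := fix_aux G (cc_of_not_two G hcon) (Nat.card K) (K := K) rfl
    hG ∅ ∅ (by simp) (by simp) (by simp) (by simp)
  obtain ⟨k, hk1, hk2⟩ := hK v
  apply hk2
  have hD3 : G.IsClique (D : Set V) := by
    unfold Joined at hD2
    rwa [Finset.empty_union] at hD2
  exact hD3 hv (hD k v hv) (Ne.symm hk1)

/-- A solvable subgroup without conjugate inside `L ∪ {1}` gives two disjoint cliques. -/
theorem two_of_solvable_subgroup {X : Type} [Group X] [Finite X] (L : Set X) (h1 : (1 : X) ∉ L)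
    (hinv : ∀ x ∈ L, x⁻¹ ∈ L) (K : Subgroup X) [Group.IsSolvable K]
    (hK : ∀ x : X, ∃ k ∈ K, x⁻¹ * k * x ∉ L ∪ {1}) :
    TwoDisjointCliques (groupGraph L h1 hinv) := by
  refine two_of_solvable_action (K := K) (groupGraph L h1 hinv) ?_ ?_
  · intro g x y h
    change ((g : X) * x)⁻¹ * ((g : X) * y) ∈ L
    have h' : x⁻¹ * y ∈ L := h
    simpa [mul_assoc] using h'
  · intro x
    obtain ⟨k, hk, hkL⟩ := hK x
    refine ⟨⟨k, hk⟩, ?_, ?_⟩
    · intro h
      apply hkL
      right
      have h2 : k * x = x := h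
      have h3 : k = 1 := by simpa using h2
      simp [h3]
    · intro h
      apply hkL
      left
      have h2 : x⁻¹ * (k * x) ∈ L := h
      rwa [mul_assoc]

/-- The connection set on the quotient: the cosets different from `M` and inside `L`. -/
def quotL {X : Type} [Group X] (L : Set X) (M : Subgroup X) : Set (X ⧸ M) :=
  {q | q ≠ ((1 : X) : X ⧸ M) ∧ ∀ x : X, (x : X ⧸ M) = q → x ∈ L}

theorem one_notMem_quotL {X : Type} [Group X] (L : Set X) (M : Subgroup X) [M.Normal] :
    (1 : X ⧸ M) ∉ quotL L M := fun h => h.1 rfl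

theorem inv_mem_quotL {X : Type} [Group X] (L : Set X) (hinv : ∀ x ∈ L, x⁻¹ ∈ L)
    (M : Subgroup X) [M.Normal] : ∀ q ∈ quotL L M, q⁻¹ ∈ quotL L M := by
  intro q hq
  refine ⟨fun h => hq.1 ?_, fun x hx => ?_⟩
  · have : q⁻¹ = 1 := h
    rw [inv_eq_one] at this
    exact this
  · have h2 : ((x⁻¹ : X) : X ⧸ M) = q := by
      rw [QuotientGroup.mk_inv, hx, inv_inv]
    have := hinv _ (hq.2 _ h2)
    simpa using this

/-- The preimage of a clique of the quotient graph is a clique. -/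
theorem isMaxClique_preimage {X : Type} [Group X] (L : Set X) (h1 : (1 : X) ∉ L)
    (hinv : ∀ x ∈ L, x⁻¹ ∈ L) (M : Subgroup X) [M.Normal] (hM : (M : Set X) ⊆ L ∪ {1})
    (C : Set (X ⧸ M))
    (hC : IsMaxClique
      (groupGraph (quotL L M) (one_notMem_quotL L M) (inv_mem_quotL L hinv M)) C) :
    IsMaxClique (groupGraph L h1 hinv) ((fun x : X => (x : X ⧸ M)) ⁻¹' C) := by
  have hadj : ∀ x y : X, x ≠ y → (x : X ⧸ M) ∈ C → (y : X ⧸ M) ∈ C → x⁻¹ * y ∈ L := by
    intro x y hxy hx hy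
    by_cases h : (x : X ⧸ M) = (y : X ⧸ M)
    · rcases hM (QuotientGroup.eq.1 h) with h2 | h2
      · exact h2
      · exact absurd (inv_mul_eq_one.1 h2) hxy
    · have h3 : (x : X ⧸ M)⁻¹ * (y : X ⧸ M) ∈ quotL L M := hC.1 hx hy h
      exact h3.2 _ rfl
  refine ⟨fun x hx y hy hxy => hadj x y hxy hx hy, ?_⟩
  intro D hD hCD
  refine Set.Subset.antisymm ?_ hCD
  intro z hz
  have hins : (groupGraph (quotL L M) (one_notMem_quotL L M)
      (inv_mem_quotL L hinv M)).IsClique (insert (z : X ⧸ M) C) := by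
    refine hC.1.insert ?_
    intro c hc hne'
    refine (?_ : (z : X ⧸ M)⁻¹ * c ∈ quotL L M)
    refine ⟨fun h => hne' (inv_mul_eq_one.1 h), fun w hw => ?_⟩
    have h4 : ((z * w : X) : X ⧸ M) = c := by
      rw [QuotientGroup.mk_mul, hw]
      group
    have h5 : z * w ∈ D := hCD (show ((z * w : X) : X ⧸ M) ∈ C by rw [h4]; exact hc)
    have h6 : z ≠ z * w := by
      intro h7
      apply hne'
      rw [← h4, ← h7]
    have h8 : z⁻¹ * (z * w) ∈ L := hD hz h5 h6
    simpa using h8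
  have h9 := hC.2 _ hins (Set.subset_insert _ _)
  have h10 : (z : X ⧸ M) ∈ insert (z : X ⧸ M) C := Set.mem_insert _ _
  rw [h9] at h10
  exact h10

/-- Lifting two disjoint cliques from the quotient. -/
theorem two_of_quotient {X : Type} [Group X] (L : Set X) (h1 : (1 : X) ∉ L)
    (hinv : ∀ x ∈ L, x⁻¹ ∈ L) (M : Subgroup X) [M.Normal] (hM : (M : Set X) ⊆ L ∪ {1})
    (h : TwoDisjointCliques
      (groupGraph (quotL L M) (one_notMem_quotL L M) (inv_mem_quotL L hinv M))) :
    TwoDisjointCliques (groupGraph L h1 hinv) := by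
  obtain ⟨C, D, hC, hD, hCD⟩ := h
  exact ⟨_, _, isMaxClique_preimage L h1 hinv M hM C hC,
    isMaxClique_preimage L h1 hinv M hM D hD, hCD.preimage _⟩

end Pool.Agent.H48.Cay
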